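import Pool.Agent.Helper95.TT.St

/-!
# Project TF (MP_6090f9_nt): the residue formula for quadratic twists of fibrations in products of two curves

THEOREM.  `k` a number field, `m ≥ 0`, `K = k(y_1..y_m)`, `f, g ∈ 𝓞 k[y_1..y_m][x]` separable over `K` of degree `≥ 1`.
For `D ∈ 𝓞 k[y_1..y_m]`, `D ≠ 0`, let `X_D → A^m` be the family with the fibres `C_{D,y} × C'_y`,
`C_{D,y} : z² = D(y) f(y,x)`, `C'_y : w² = g(y,x)`; `BB D f g v` is the average over the smooth fibres over the residue field at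
`v` of the trace of Frobenius on `H²`.  For every finite set `S` of `D`'s, pairwise different modulo squares of `K`:
`∑_(D ∈ S) ((s-2) F_D(s) - 2)² ≤ B² + ε` for all `s > 2` close to `2`, `B = (8 deg f + 12)(8 deg g + 12)`.
`m = 0` is the theorem of `Pool/Agent/Helper95/TT/St.lean`, whose notation and modules are used.

Every docstring is a complete proof; `StFn` is proved as `theorem hFn : StFn` (hypotheses = earlier statements, as listed).
-/

set_option autoImplicit false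

namespace Pool.Agent.Helper24.TF

open NumberField IsDedekindDomain Polynomial Filter Topology
open Pool.Agent.Helper95.TT
open scoped Classical

noncomputable section

/-- `𝓞 k [y_1, .., y_m]` -/
abbrev Py (k : Type) [Field k] [NumberField k] (m : ℕ) : Type := MvPolynomial (Fin m) (𝓞 k)

/-- `k(y_1, .., y_m)` -/
abbrev Ky (k : Type) [Field k] [NumberField k] (m : ℕ) : Type := FractionRing (Py k m)

/-- the residue field at `v` -/
abbrev Kv {k : Type} [Field k] [NumberField k] (v : Pr k) : Type := 𝓞 k ⧸ v.asIdeal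

variable {k : Type} [Field k] [NumberField k] {m : ℕ}

/-- the value of a polynomial at a point `y` over the residue field at `v` -/
def val (v : Pr k) (y : Fin m → Kv v) : Py k m →+* Kv v :=
  MvPolynomial.eval₂Hom (Ideal.Quotient.mk v.asIdeal) y

/-- the fibre over `y` of the family `f` -/
def fib (f : (Py k m)[X]) (v : Pr k) (y : Fin m → Kv v) : (Kv v)[X] := f.map (val v y)

/-- number of points over the residue field at `v` of the smooth projective curve `z² = h(x)`: the affine points, and at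
infinity one point if the degree is odd, and the points `z` with `z² = lc(h)` if the degree is even -/
def ptsF (v : Pr k) (h : (Kv v)[X]) : ℕ :=
  Nat.card {z : Kv v × Kv v // z.2 ^ 2 = h.eval z.1} +
  if Even h.natDegree then Nat.card {z : Kv v // z ^ 2 = h.leadingCoeff} else 1

/-- trace of Frobenius on `H¹` of the curve `z² = h(x)` over the residue field at `v` -/
def trF (v : Pr k) (h : (Kv v)[X]) : ℤ := q v + 1 - ptsF v h

/-- the fibres over `y` are smooth -/
def Good (D : Py k m) (f g : (Py k m)[X]) (v : Pr k) (y : Fin m → Kv v) : Prop :=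
  val v y D ≠ 0 ∧ ((fib f v y).natDegree = f.natDegree ∧ Squarefree (fib f v y)) ∧
    (fib g v y).natDegree = g.natDegree ∧ Squarefree (fib g v y)

/-- `q_v^(-m)` times the sum over the smooth fibres of `X_D` over the residue field at `v` of the trace on `H²` -/
def BB (D : Py k m) (f g : (Py k m)[X]) (v : Pr k) : ℝ :=
  (∑ᶠ y : Fin m → Kv v, if Good D f g v y then
    (2 * (q v : ℝ) + trF v (C (val v y D) * fib f v y) * trF v (fib g v y)) else 0) / (q v : ℝ) ^ m

/-- quadratic character of the residue field at `v` -/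
def chF (v : Pr k) (a : Kv v) : ℝ := if a = 0 then 0 else if IsSquare a then 1 else -1

/-- mean value over the points of the residue field of `chF (E(y))` -/
def av (E : Py k m) (v : Pr k) : ℝ :=
  (∑ᶠ y : Fin m → Kv v, chF v (val v y E)) / (q v : ℝ) ^ m

/-- **F1** (few zeros, Schwartz-Zippel).
PROOF.  Choose a nonzero coefficient `α` of `P`; `R = {v | α ∈ v}` is finite (A7, first part).  For `v ∉ R` the reduction
`P̄ ∈ (Kv v)[y]` is nonzero of total degree `≤ deg P`; `Kv v` is a finite domain with `q v` elements (`Ideal.absNorm`,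
`Submodule.cardQuot`).  `MvPolynomial.schwartz_zippel_totalDegree` with `S = univ`: `#zeros / q^m ≤ deg P / q`.
(`m = 0`: no zeros.)  Hypotheses: StA7. -/
def StF1 : Prop := ∀ (k : Type) [Field k] [NumberField k] (m : ℕ) (P : Py k m), P ≠ 0 →
  ∃ (C : ℝ) (R : Set (Pr k)), 0 ≤ C ∧ R.Finite ∧ ∀ v, v ∉ R →
    (Nat.card {y : Fin m → Kv v // val v y P = 0} : ℝ) * q v ≤ C * (q v : ℝ) ^ m

/-- **F2** (good fibres of a separable family).
PROOF.  `A f + B f' = 1` over `K = Ky k m`; clear denominators: `a f + b f' = C c` in `(Py k m)[X]`, `c ≠ 0`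
(`IsLocalization.exist_integer_multiples`-type lemma; the map to `K[X]` is injective).  `P = c * lc f`.  If `val v y P ≠ 0` then the
leading coefficient of `fib f v y` does not vanish, so the degree is full (`natDegree_map_of_leadingCoeff_ne_zero`), and
`a_y f_y + b_y f_y' = c(y)`, a nonzero constant (a unit: `Kv v` is a field as `v` is a maximal ideal), so `f_y` is separable, hence
squarefree (`Polynomial.Separable.squarefree`, any commutative ring). -/
def StF2 : Prop := ∀ (k : Type) [Field k] [NumberField k] (m : ℕ) (f : (Py k m)[X]), f ≠ 0 →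
  (f.map (algebraMap (Py k m) (Ky k m))).Separable →
  ∃ P : Py k m, P ≠ 0 ∧ ∀ (v : Pr k) (y : Fin m → Kv v), val v y P ≠ 0 →
    (fib f v y).natDegree = f.natDegree ∧ Squarefree (fib f v y)

/-- **F3** (finite fields).  Hypotheses: StA5 StA6.
PROOF.  (i), (v): as A5 (`Kv v` is a finite field of odd characteristic, `chF v` is its quadratic character;
`chi a v = chF v (mk a)` as `2a ∈ v` iff `a ∈ v`, and `b ↦ mk b` is surjective); (i) also follows from A5 and (v).  (ii): for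
`c ∈ κ` there are `1 + χ(c)` solutions of `z² = c`; `ptsF (C a * h) = ∑_x (1 + χ(a)χ(h x)) + (1 or 1 + χ(a)χ(lc h))`.  (Or lift
`a`, `h` to `D`, `H` over `𝓞 k` with `H.map mk = h`, `natDegree H = natDegree h`, `Polynomial.lifts_and_natDegree_eq_..`-type
lemmas; then `trF v (C a * h) = tr D H v` and A5 applies.)  (iii): lift `h` as before, `¬ Bad H v`, `trF v h = tr 1 H v`, A6.
(iv): the number of affine points is `∑_x (1 + χ(h x))`, so `∑_x χ(h x) = 1 - i - trF v h` with `0 ≤ i ≤ 2` points at infinity. -/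
def StF3 : Prop := ∀ (k : Type) [Field k] [NumberField k] (v : Pr k), (2 : 𝓞 k) ∉ v.asIdeal →
  (∀ a b : Kv v, chF v (a * b) = chF v a * chF v b) ∧
  (∀ (a : Kv v) (h : (Kv v)[X]), a ≠ 0 → (trF v (C a * h) : ℝ) = chF v a * trF v h) ∧
  (∀ h : (Kv v)[X], 1 ≤ h.natDegree → Squarefree h →
    |(trF v h : ℝ)| ≤ (8 * h.natDegree + 12) * √(q v)) ∧
  (∀ h : (Kv v)[X], |∑ᶠ x : Kv v, chF v (h.eval x)| ≤ |(trF v h : ℝ)| + 1) ∧
  ∀ a : 𝓞 k, chF v (Ideal.Quotient.mk v.asIdeal a) = chi a v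

/-- **F4** (square free part in one variable).
PROOF.  Over the field `K = Ky k m` of characteristic `0` every nonzero polynomial is `P₁ Q₁²` with `P₁` squarefree (strong
induction on the degree: if `x² ∣ E` with `x` not a unit, divide), hence separable (`PerfectField.separable_iff_squarefree`).
Clear denominators: `α P₁ = P₀`, `β Q₁ = Q₀` with `α, β ≠ 0` in `Py k m` and `P₀, Q₀` over `Py k m`.  Then
`(αβ)² E = α P₀ Q₀²`; put `δ = αβ`, `P = C α * P₀`, `Q = Q₀`; `P` over `K` is `P₁` times a nonzero constant, separable. -/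
def StF4 : Prop := ∀ (k : Type) [Field k] [NumberField k] (m : ℕ) (E : (Py k m)[X]), E ≠ 0 →
  ∃ (δ : Py k m) (P Q : (Py k m)[X]), δ ≠ 0 ∧ P ≠ 0 ∧ Q ≠ 0 ∧ C δ ^ 2 * E = P * Q ^ 2 ∧
    (P.map (algebraMap (Py k m) (Ky k m))).Separable

/-- **F5** (induction step for the mean of a quadratic character).  Hypotheses: StA7 StF1 StF2 StF3 StF4.
PROOF.  `E' = finSuccEquiv E ∈ (Py k m)[X]` (the variable `0` becomes `X`), `val v (Fin.cons x y) E = (fib E' v y).eval x`.  F4:
`δ² E' = P Q²`.  Let `y` be such that `δ(y) ≠ 0`, and `fib Q v y ≠ 0` (`lc Q (y) ≠ 0`); for all but `deg Q` of the `x ∈ κ`,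
`Q(x,y) ≠ 0`, `χ(E(x,y)) = χ(P(x,y))` (multiplicativity of `χ`, `χ(c²) = 1` for `c ≠ 0`; if `2 ∉ v`).
(a) `natDegree P ≥ 1`: let `P₂` be from F2 for `P`.  If moreover `P₂(y) ≠ 0`: `|∑_x χ(P(x,y))| ≤ (8 deg P + 12)√q + 1` (F3).  So
`|∑_(x,y) χ(E(x,y))| ≤ q^m ((8 deg P + 12)√q + 1 + 2 deg Q) + (number of bad y) q`, and the number of bad `y` is `≤ C q^(m-1)` by
F1: `|av E v| ≤ C q^(-1/2)`.  (b) `P = C e`: `∑_x χ(P(x,y)) = q χ(e(y))`, so `|av E v - av e v| ≤ C/q`.  If `e` is a square in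
`Ky k m`, `e = s²/t²`, then `t² δ² E' = s² Q²`, so `E` is a square in `Ky k (m+1)`.  In both cases `R` is the set of `v` with
`2 ∈ v` or in the exceptional sets of F1 (finite). -/
def StF5 : Prop := ∀ (k : Type) [Field k] [NumberField k] (m : ℕ) (E : Py k (m + 1)), E ≠ 0 →
  ¬ IsSquare (algebraMap (Py k (m + 1)) (Ky k (m + 1)) E) →
  ∃ (C : ℝ) (R : Set (Pr k)), R.Finite ∧
    ((∀ v, v ∉ R → |av E v| * √(q v) ≤ C) ∨
      ∃ e : Py k m, e ≠ 0 ∧ ¬ IsSquare (algebraMap (Py k m) (Ky k m) e) ∧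
        ∀ v, v ∉ R → |av E v - av e v| * q v ≤ C)

/-- **F6** (the quadratic character of a nonsquare has mean zero).  Hypotheses: StA2 StA4 StF3 StF5.
PROOF.  Induction on `m`, F5.  `|av E v| ≤ 1` always.  A function `a` with `|a v| √(q v) ≤ C` outside a finite set and bounded
satisfies `(s-1) ∑' a v wt s v → 0`: `∑ |a v| wt s v ≤ C ∑_v wt (s + 1/2) v + O(1) ≤ C ∑ wt (3/2) v + O(1)`, bounded (A2).
`m = 0`: `Py k 0 ≅ 𝓞 k` (`MvPolynomial.isEmptyRingEquiv`), `E = C a`, `av E v = chF v (mk a) = chi a v` for `2 ∉ v` (F3 (v)), `a` is not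
a square in `k`; A4. -/
def StF6 : Prop := ∀ (k : Type) [Field k] [NumberField k] (m : ℕ) (E : Py k m), E ≠ 0 →
  ¬ IsSquare (algebraMap (Py k m) (Ky k m) E) →
  Tendsto (fun s : ℝ => (s - 1) * ∑' v : Pr k, av E v * wt s v) (𝓝[>] 1) (𝓝 0)

/-- **F7** (analytic part).  Hypotheses: StA2.
PROOF.  See `M_Abs.lean`. -/
def StF7 : Prop := ∀ (k : Type) [Field k] [NumberField k] (ι : Type) [Fintype ι] (μ : ι → Pr k → ℝ)
  (B : ℝ), (∀ i v, |μ i v| ≤ B) →
  (∀ ε > 0, ∀ᶠ s : ℝ in 𝓝[>] 1, ∑ i, ((s - 1) * ∑' v : Pr k, μ i v * wt s v) ^ 2 ≤ B ^ 2 + ε) →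
  ∀ (C : ℝ) (R : Set (Pr k)) (b : ι → Pr k → ℝ), R.Finite →
  (∀ i, ∀ v, v ∉ R → |b i v - (2 * q v + μ i v * q v)| ≤ C) →
  (∀ i, ∀ s : ℝ, 2 < s → Summable (fun v : Pr k => b i v * Real.log (q v) * (q v : ℝ) ^ (-s))) ∧
  ∀ ε > 0, ∀ᶠ s : ℝ in 𝓝[>] 2,
    ∑ i, ((s - 2) * (∑' v : Pr k, b i v * Real.log (q v) * (q v : ℝ) ^ (-s)) - 2) ^ 2 ≤ B ^ 2 + ε

/-- **F8** (main theorem).  `b i v` is any number which differs from the average `BB` over the smooth fibres by a bounded
amount (all terms coming from singular fibres and from points at infinity of the base are of this kind), for `v` outside a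
finite set.  Hypotheses: StA2 StA7 StA8 StF1 StF2 StF3 StF6 StF7.
PROOF.  A8 for `V = Σ v, (Fin m → Kv v)`, `w s (v,y) = (s-1) wt s v / q^m`, `c (v,y) = trF f_y trF g_y / q` if `2 ∉ v` and both
fibres are good, `0` otherwise (`|c| ≤ B`, F3), `χ_i (v,y) = chF v (D_i(y))` if `2 ∉ v`, `0` otherwise.  `∑ w → 1` (A2);
`∑ w χ_i χ_j = (s-1) ∑_v wt s v av(D_i D_j) + o(1) → 0` for `i ≠ j` (F3 (i), F6), `∑ w χ_i² = ∑ w - O(s-1)` (F1 for `D_i`: the points
with `D_i(y) = 0` have total weight `≤ (s-1) ∑ wt s v C/q`).  So with `μ_i v = ∑_y c χ_i / q^m` the hypothesis of F7 holds.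
For `2 ∉ v`: `BB D_i f g v = 2 q G_i + q μ_i v`, `G_i = #(good y)/q^m`, and `1 - G_i ≤ C/q` by F1 for `D_i P_f P_g` (F2). -/
def StF8 : Prop := ∀ (k : Type) [Field k] [NumberField k] (m : ℕ) (f g : (Py k m)[X]),
  1 ≤ f.natDegree → 1 ≤ g.natDegree → (f.map (algebraMap (Py k m) (Ky k m))).Separable →
  (g.map (algebraMap (Py k m) (Ky k m))).Separable →
  ∀ (ι : Type) [Fintype ι] (D : ι → Py k m), (∀ i, D i ≠ 0) →
  (∀ i j, i ≠ j → ¬ IsSquare (algebraMap (Py k m) (Ky k m) (D i * D j))) →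
  ∀ (C : ℝ) (R : Set (Pr k)) (b : ι → Pr k → ℝ), R.Finite →
  (∀ i, ∀ v, v ∉ R → |b i v - BB (D i) f g v| ≤ C) →
  (∀ i, ∀ s : ℝ, 2 < s → Summable (fun v : Pr k => b i v * Real.log (q v) * (q v : ℝ) ^ (-s))) ∧
  ∀ ε > 0, ∀ᶠ s : ℝ in 𝓝[>] 2,
    ∑ i, ((s - 2) * (∑' v : Pr k, b i v * Real.log (q v) * (q v : ℝ) ^ (-s)) - 2) ^ 2 ≤
      ((8 * f.natDegree + 12) * (8 * g.natDegree + 12) : ℝ) ^ 2 + ε

end

end Pool.Agent.Helper24.TF
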