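import Pool.Agent.Helper24.TF.StF

/-!
# Project TF, module F7: analytic part
-/

set_option autoImplicit false

namespace Pool.Agent.Helper24.TF

open NumberField IsDedekindDomain Polynomial Filter Topology
open Pool.Agent.Helper95.TT
open scoped Classical

noncomputable section

variable {k : Type} [Field k] [NumberField k]

theorem q_two_tf (v : Pr k) : (2 : ℝ) ≤ (q v : ℝ) := by
  have h0 : q v ≠ 0 := fun h => v.ne_bot (Ideal.absNorm_eq_zero_iff.1 h)
  have h1 : q v ≠ 1 := fun h => v.isPrime.ne_top (Ideal.absNorm_eq_one_iff.1 h)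
  have h2 : 2 ≤ q v := by omega
  exact_mod_cast h2

theorem wt_nonneg_tf (s : ℝ) (v : Pr k) : 0 ≤ wt s v := by
  have h := q_two_tf v
  exact mul_nonneg (Real.log_nonneg (by linarith)) (Real.rpow_nonneg (by linarith) _)

private lemma q_wt (s : ℝ) (v : Pr k) :
    (q v : ℝ) * (Real.log (q v) * (q v : ℝ) ^ (-s)) = wt (s - 1) v := by
  have h : 0 < (q v : ℝ) := by linarith [q_two_tf v]
  unfold wt
  rw [show -(s - 1) = -s + 1 by ring, Real.rpow_add h, Real.rpow_one]
  ring

theorem wt_anti_tf {s t : ℝ} (hst : s ≤ t) (v : Pr k) : wt t v ≤ wt s v := by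
  have h := q_two_tf v
  unfold wt
  refine mul_le_mul_of_nonneg_left ?_ (Real.log_nonneg (by linarith))
  exact Real.rpow_le_rpow_of_exponent_le (by linarith) (by linarith)

theorem hF7 (hA2 : StA2) : StF7 := by
  intro k _ _ ι _ μ B hμ hbes C R b hR hb
  have hs := (hA2 k).1
  have hl := (hA2 k).2
  set L : ℝ → ℝ := fun s => ∑' v : Pr k, wt s v with hL
  -- the bounded remainder
  set r : ι → Pr k → ℝ := fun i v => b i v - (2 * q v + μ i v * q v) with hr
  have hM : ∀ i, ∃ M : ℝ, 0 ≤ M ∧ ∀ v, |r i v| ≤ M := by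
    intro i
    refine ⟨|C| + ∑ v ∈ hR.toFinset, |r i v|, by positivity, fun v => ?_⟩
    by_cases hv : v ∈ R
    · have h1 : |r i v| ≤ ∑ v ∈ hR.toFinset, |r i v| :=
        Finset.single_le_sum (f := fun v => |r i v|) (fun _ _ => abs_nonneg _)
          (hR.mem_toFinset.2 hv)
      linarith [abs_nonneg C]
    · have h1 : |r i v| ≤ C := hb i v hv
      have h2 : 0 ≤ ∑ v ∈ hR.toFinset, |r i v| := Finset.sum_nonneg fun _ _ => abs_nonneg _
      linarith [le_abs_self C]
  choose M hM0 hM using hM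
  have hrs : ∀ i, ∀ s : ℝ, 1 < s → Summable (fun v : Pr k => r i v * wt s v) := fun i s h1 =>
    ((hs s h1).mul_left (M i)).of_norm_bounded fun v => by
      rw [norm_mul, Real.norm_eq_abs, Real.norm_of_nonneg (wt_nonneg_tf s v)]
      exact mul_le_mul_of_nonneg_right (hM i v) (wt_nonneg_tf s v)
  have hcs : ∀ i, ∀ s : ℝ, 1 < s → Summable (fun v : Pr k => μ i v * wt s v) :=
    fun i s h1 => ((hs s h1).mul_left B).of_norm_bounded fun v => by
      rw [norm_mul, Real.norm_of_nonneg (wt_nonneg_tf s v), Real.norm_eq_abs]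
      exact mul_le_mul_of_nonneg_right (hμ i v) (wt_nonneg_tf s v)
  -- decomposition of the series
  have hdec : ∀ i v, ∀ s : ℝ, b i v * Real.log (q v) * (q v : ℝ) ^ (-s) =
      2 * wt (s - 1) v + μ i v * wt (s - 1) v + r i v * wt s v := by
    intro i v s
    have h1 := q_wt s v
    have h2 : b i v = r i v + (2 * q v + μ i v * q v) := by
      simp only [hr]
      ring
    rw [h2, ← h1]
    unfold wt
    ring
  have hsum : ∀ i, ∀ s : ℝ, 2 < s →
      Summable (fun v : Pr k => b i v * Real.log (q v) * (q v : ℝ) ^ (-s)) := by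
    intro i s h
    simp only [hdec]
    exact (((hs (s - 1) (by linarith)).mul_left 2).add (hcs i (s - 1) (by linarith))).add
      (hrs i s (by linarith))
  refine ⟨hsum, fun ε hε => ?_⟩
  set Y : ι → ℝ → ℝ := fun i s => (s - 1) * ∑' v : Pr k, μ i v * wt s v with hY
  set E : ι → ℝ → ℝ := fun i s => (s - 2) * ∑' v : Pr k, r i v * wt s v with hE
  have hshift : Tendsto (fun s : ℝ => s - 1) (𝓝[>] 2) (𝓝[>] 1) := by
    refine tendsto_nhdsWithin_iff.2 ⟨?_, ?_⟩
    · have h : Tendsto (fun s : ℝ => s - 1) (𝓝 2) (𝓝 (2 - 1)) :=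
        (continuous_id.sub continuous_const).tendsto 2
      rw [show (2 : ℝ) - 1 = 1 by norm_num] at h
      exact h.mono_left nhdsWithin_le_nhds
    · filter_upwards [self_mem_nhdsWithin] with s hs1
      have : (2 : ℝ) < s := hs1
      show (1 : ℝ) < s - 1
      linarith
  have hval : ∀ i, ∀ s : ℝ, 2 < s →
      (s - 2) * (∑' v : Pr k, b i v * Real.log (q v) * (q v : ℝ) ^ (-s)) - 2 =
      Y i (s - 1) + (2 * ((s - 1 - 1) * L (s - 1) - 1) + E i s) := by
    intro i s h
    simp only [hdec]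
    rw [Summable.tsum_add (((hs (s - 1) (by linarith)).mul_left 2).add
        (hcs i (s - 1) (by linarith))) (hrs i s (by linarith)),
      Summable.tsum_add ((hs (s - 1) (by linarith)).mul_left 2) (hcs i (s - 1) (by linarith)),
      tsum_mul_left]
    simp only [hE, hL, hY]
    ring
  -- the error tends to zero
  have hEl : ∀ i, Tendsto (E i) (𝓝[>] 2) (𝓝 0) := by
    intro i
    have h1 : Tendsto (fun s : ℝ => (s - 2) * (M i * L 2)) (𝓝[>] 2) (𝓝 0) := by
      have h : Tendsto (fun s : ℝ => (s - 2) * (M i * L 2)) (𝓝 2) (𝓝 ((2 - 2) * (M i * L 2))) :=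
        ((continuous_id.sub continuous_const).mul continuous_const).tendsto 2
      rw [sub_self, zero_mul] at h
      exact h.mono_left nhdsWithin_le_nhds
    refine squeeze_zero_norm' ?_ h1
    filter_upwards [self_mem_nhdsWithin] with s hs1
    have hs2 : (2 : ℝ) < s := hs1
    rw [norm_mul, Real.norm_of_nonneg (by linarith)]
    refine mul_le_mul_of_nonneg_left ?_ (by linarith)
    rw [hL, ← tsum_mul_left]
    refine tsum_of_norm_bounded ((hs 2 (by norm_num)).mul_left (M i)).hasSum fun v => ?_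
    rw [norm_mul, Real.norm_eq_abs, Real.norm_of_nonneg (wt_nonneg_tf s v)]
    exact mul_le_mul (hM i v) (wt_anti_tf hs2.le v) (wt_nonneg_tf s v) (hM0 i)
  set e : ι → ℝ → ℝ := fun i s => 2 * ((s - 1 - 1) * L (s - 1) - 1) + E i s with he
  have hel : ∀ i, Tendsto (e i) (𝓝[>] 2) (𝓝 0) := by
    intro i
    have h1 : Tendsto (fun s : ℝ => (s - 1 - 1) * L (s - 1)) (𝓝[>] 2) (𝓝 1) := hl.comp hshift
    have h2 := ((h1.sub_const 1).const_mul 2).add (hEl i)
    rw [show (2 : ℝ) * (1 - 1) + 0 = 0 by norm_num] at h2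
    exact h2
  have htot : Tendsto (fun s => ∑ i, (4 * |B| * |e i s| + e i s ^ 2)) (𝓝[>] 2) (𝓝 0) := by
    have h1 : Tendsto (fun s => ∑ i, (4 * |B| * |e i s| + e i s ^ 2)) (𝓝[>] 2)
        (𝓝 (∑ i : ι, (4 * |B| * |(0 : ℝ)| + 0 ^ 2))) :=
      tendsto_finsetSum _ fun i _ => (((hel i).abs).const_mul _).add ((hel i).pow 2)
    simpa using h1
  have hbes' := hbes (ε / 2) (by positivity)
  have hYb : ∀ᶠ s : ℝ in 𝓝[>] 1, ∀ i, |Y i s| ≤ 2 * |B| := by
    have h1 : ∀ᶠ s : ℝ in 𝓝[>] 1, (s - 1) * L s < 2 := hl.eventually_lt_const (by norm_num)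
    filter_upwards [h1, self_mem_nhdsWithin] with s hs1 hs2 i
    have hs3 : (1 : ℝ) < s := hs2
    have h2 : |Y i s| ≤ |B| * ((s - 1) * L s) := by
      simp only [hY, hL]
      rw [abs_mul, abs_of_pos (by linarith : (0 : ℝ) < s - 1)]
      have h3 : |∑' v : Pr k, μ i v * wt s v| ≤ |B| * ∑' v : Pr k, wt s v := by
        rw [← tsum_mul_left, ← Real.norm_eq_abs]
        refine tsum_of_norm_bounded ((hs s hs3).mul_left |B|).hasSum fun v => ?_
        rw [norm_mul, Real.norm_of_nonneg (wt_nonneg_tf s v), Real.norm_eq_abs]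
        exact mul_le_mul_of_nonneg_right ((hμ i v).trans (le_abs_self B)) (wt_nonneg_tf s v)
      have h4 := mul_le_mul_of_nonneg_left h3 (by linarith : (0 : ℝ) ≤ s - 1)
      linarith
    have h3 : |B| * ((s - 1) * L s) ≤ |B| * 2 := mul_le_mul_of_nonneg_left hs1.le (abs_nonneg B)
    linarith
  filter_upwards [hshift.eventually hbes', hshift.eventually hYb, self_mem_nhdsWithin,
    htot.eventually_lt_const (show (0 : ℝ) < ε / 2 by positivity)] with s h1 h2 h3 h4
  have h5 : (2 : ℝ) < s := h3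
  have h6 : ∀ i, ((s - 2) * (∑' v : Pr k, b i v * Real.log (q v) * (q v : ℝ) ^ (-s)) - 2) ^ 2 ≤
      Y i (s - 1) ^ 2 + (4 * |B| * |e i s| + e i s ^ 2) := by
    intro i
    rw [hval i s h5]
    have h7 := h2 i
    have h8 : Y i (s - 1) * e i s ≤ 2 * |B| * |e i s| := by
      refine (le_abs_self _).trans ?_
      rw [abs_mul]
      exact mul_le_mul_of_nonneg_right h7 (abs_nonneg _)
    show (Y i (s - 1) + e i s) ^ 2 ≤ _
    nlinarith
  refine (Finset.sum_le_sum fun i _ => h6 i).trans ?_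
  rw [Finset.sum_add_distrib]
  have h9 : ∑ i, Y i (s - 1) ^ 2 ≤ B ^ 2 + ε / 2 := h1
  linarith

end

end Pool.Agent.Helper24.TF
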