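import Pool.Agent.Helper24.TF.M_F7

/-!
# Project TF, module F8: the main theorem
-/

set_option autoImplicit false

namespace Pool.Agent.Helper24.TF

open NumberField IsDedekindDomain Polynomial Filter Topology
open Pool.Agent.Helper95.TT
open scoped Classical

noncomputable section

variable {k : Type} [Field k] [NumberField k] {m : ℕ}

instance fin_Kv (v : Pr k) : Finite (Kv v) := Ideal.finiteQuotientOfFreeOfNeBot v.asIdeal v.ne_bot

theorem card_Kv (v : Pr k) : Nat.card (Kv v) = q v := by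
  unfold q
  rw [Ideal.absNorm_apply, Submodule.cardQuot_apply]

theorem card_fun_tf (v : Pr k) (m : ℕ) : (Nat.card (Fin m → Kv v) : ℝ) = (q v : ℝ) ^ m := by
  rw [Nat.card_fun, card_Kv, Nat.card_fin]
  push_cast
  rfl

noncomputable instance ft_fun (v : Pr k) (m : ℕ) : Fintype (Fin m → Kv v) := Fintype.ofFinite _

theorem ftcard_fun (v : Pr k) (m : ℕ) : (Fintype.card (Fin m → Kv v) : ℝ) = (q v : ℝ) ^ m := by
  rw [← card_fun_tf, Nat.card_eq_fintype_card]

theorem chF_abs (v : Pr k) (a : Kv v) : |chF v a| ≤ 1 := by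
  unfold chF
  split_ifs <;> simp

/-- null lemma -/
theorem null_tf (hA2 : StA2) (a : Pr k → ℝ) (M C : ℝ) (R : Set (Pr k)) (hR : R.Finite)
    (hM : ∀ v, |a v| ≤ M) (hC : ∀ v, v ∉ R → |a v| * √(q v) ≤ C) :
    Tendsto (fun s : ℝ => (s - 1) * ∑' v : Pr k, a v * wt s v) (𝓝[>] 1) (𝓝 0) := by
  have hs := (hA2 k).1
  set G : Pr k → ℝ := fun v => |C| * wt (3 / 2) v + (if v ∈ R then M * wt 1 v else 0) with hG
  have hGs : Summable G := by
    refine ((hs (3 / 2) (by norm_num)).mul_left |C|).add ?_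
    exact summable_of_ne_finset_zero (s := hR.toFinset) fun v hv =>
      if_neg fun h => hv (hR.mem_toFinset.2 h)
  have hM0 : ∀ v : Pr k, 0 ≤ M := fun v => (abs_nonneg _).trans (hM v)
  have hb : ∀ s : ℝ, 1 < s → ∀ v : Pr k, ‖a v * wt s v‖ ≤ G v := by
    intro s h1 v
    rw [norm_mul, Real.norm_eq_abs, Real.norm_of_nonneg (wt_nonneg_tf s v)]
    have hq := q_two_tf v
    have h0 : 0 ≤ |C| * wt (3 / 2) v := mul_nonneg (abs_nonneg _) (wt_nonneg_tf _ v)
    by_cases hv : v ∈ R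
    · simp only [hG, if_pos hv]
      have h2 : |a v| * wt s v ≤ M * wt 1 v :=
        mul_le_mul (hM v) (wt_anti_tf h1.le v) (wt_nonneg_tf s v) (hM0 v)
      linarith
    · simp only [hG, if_neg hv, add_zero]
      have h2 : wt s v ≤ wt 1 v := wt_anti_tf h1.le v
      have h3 : wt 1 v = √(q v) * wt (3 / 2) v := by
        unfold wt
        rw [Real.sqrt_eq_rpow, mul_left_comm, ← Real.rpow_add (by linarith)]
        norm_num
      calc |a v| * wt s v ≤ |a v| * wt 1 v := mul_le_mul_of_nonneg_left h2 (abs_nonneg _)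
        _ = (|a v| * √(q v)) * wt (3 / 2) v := by rw [h3]; ring
        _ ≤ |C| * wt (3 / 2) v :=
          mul_le_mul_of_nonneg_right ((hC v hv).trans (le_abs_self C)) (wt_nonneg_tf _ v)
  have h1 : Tendsto (fun s : ℝ => (s - 1) * ∑' v, G v) (𝓝[>] 1) (𝓝 0) := by
    have h : Tendsto (fun s : ℝ => (s - 1) * ∑' v, G v) (𝓝 1) (𝓝 ((1 - 1) * ∑' v, G v)) :=
      ((continuous_id.sub continuous_const).mul continuous_const).tendsto 1
    rw [sub_self, zero_mul] at h
    exact h.mono_left nhdsWithin_le_nhds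
  refine squeeze_zero_norm' ?_ h1
  filter_upwards [self_mem_nhdsWithin] with s hs1
  have hs2 : (1 : ℝ) < s := hs1
  rw [norm_mul, Real.norm_of_nonneg (by linarith)]
  exact mul_le_mul_of_nonneg_left (tsum_of_norm_bounded hGs.hasSum (hb s hs2)) (by linarith)

/-- sums over all pairs `(v, y)` -/
theorem sig_tf (hA2 : StA2) {s : ℝ} (hs1 : 1 < s) (F : (Σ v : Pr k, (Fin m → Kv v)) → ℝ) (M : ℝ)
    (hF : ∀ z, |F z| ≤ M) :
    Summable (fun z : (Σ v : Pr k, (Fin m → Kv v)) => (s - 1) * wt s z.1 / (q z.1 : ℝ) ^ m * F z) ∧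
    ∑' z : (Σ v : Pr k, (Fin m → Kv v)), (s - 1) * wt s z.1 / (q z.1 : ℝ) ^ m * F z =
      (s - 1) * ∑' v : Pr k, ((∑ y : Fin m → Kv v, F ⟨v, y⟩) / (q v : ℝ) ^ m) * wt s v := by
  have hs := (hA2 k).1
  have hq : ∀ v : Pr k, (0 : ℝ) < (q v : ℝ) ^ m := fun v => by
    have := q_two_tf v
    positivity
  have hw0 : ∀ v : Pr k, 0 ≤ (s - 1) * wt s v / (q v : ℝ) ^ m := fun v =>
    div_nonneg (mul_nonneg (by linarith) (wt_nonneg_tf s v)) (hq v).le
  have hsw : Summable (fun z : (Σ v : Pr k, (Fin m → Kv v)) => (s - 1) * wt s z.1 / (q z.1 : ℝ) ^ m) := by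
    rw [summable_sigma_of_nonneg fun z => hw0 z.1]
    refine ⟨fun v => Summable.of_finite, ?_⟩
    refine ((hs s hs1).mul_left (s - 1)).congr fun v => ?_
    rw [tsum_fintype]
    simp only [Finset.sum_const, Finset.card_univ, nsmul_eq_mul]
    rw [ftcard_fun, mul_div_assoc', mul_div_cancel_left₀ _ (hq v).ne']
  have hM : ∀ z, ‖(s - 1) * wt s z.1 / (q z.1 : ℝ) ^ m * F z‖ ≤
      (s - 1) * wt s z.1 / (q z.1 : ℝ) ^ m * M := by
    intro z
    rw [norm_mul, Real.norm_of_nonneg (hw0 z.1), Real.norm_eq_abs]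
    exact mul_le_mul_of_nonneg_left (hF z) (hw0 z.1)
  have hsum := (hsw.mul_right M).of_norm_bounded hM
  refine ⟨hsum, ?_⟩
  rw [hsum.tsum_sigma, ← tsum_mul_left]
  refine tsum_congr fun v => ?_
  rw [tsum_fintype]
  show ∑ y : Fin m → Kv v, (s - 1) * wt s v / (q v : ℝ) ^ m * F ⟨v, y⟩ = _
  rw [← Finset.mul_sum]
  ring

/-- both fibres are smooth (without the twist) -/
def Gd (f g : (Py k m)[X]) (v : Pr k) (y : Fin m → Kv v) : Prop :=
  ((fib f v y).natDegree = f.natDegree ∧ Squarefree (fib f v y)) ∧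
    (fib g v y).natDegree = g.natDegree ∧ Squarefree (fib g v y)

/-- product of the traces, divided by `q` -/
def cc (f g : (Py k m)[X]) (z : Σ v : Pr k, (Fin m → Kv v)) : ℝ :=
  if (2 : 𝓞 k) ∉ z.1.asIdeal ∧ Gd f g z.1 z.2 then
    (trF z.1 (fib f z.1 z.2) * trF z.1 (fib g z.1 z.2) : ℝ) / q z.1 else 0

/-- the characters -/
def xx (D : Py k m) (z : Σ v : Pr k, (Fin m → Kv v)) : ℝ :=
  if (2 : 𝓞 k) ∈ z.1.asIdeal then 0 else chF z.1 (val z.1 z.2 D)

private lemma xx_abs (D : Py k m) (z : Σ v : Pr k, (Fin m → Kv v)) : |xx D z| ≤ 1 := by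
  unfold xx
  split_ifs
  · simp
  · exact chF_abs _ _

private lemma cc_abs (hF3 : StF3) {f g : (Py k m)[X]} (hf : 1 ≤ f.natDegree) (hg : 1 ≤ g.natDegree)
    (z : Σ v : Pr k, (Fin m → Kv v)) :
    |cc f g z| ≤ (8 * f.natDegree + 12) * (8 * g.natDegree + 12) := by
  have hB : (0 : ℝ) ≤ (8 * f.natDegree + 12) * (8 * g.natDegree + 12) := by positivity
  unfold cc
  split_ifs with h
  · obtain ⟨h2, ⟨hf1, hf2⟩, hg1, hg2⟩ := h
    obtain ⟨-, -, h3, -, -⟩ := hF3 k z.1 h2
    have e1 := h3 (fib f z.1 z.2) (by rw [hf1]; exact hf) hf2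
    have e2 := h3 (fib g z.1 z.2) (by rw [hg1]; exact hg) hg2
    rw [hf1] at e1
    rw [hg1] at e2
    have hq := q_two_tf z.1
    have hq0 : (0 : ℝ) < q z.1 := by linarith
    rw [abs_div, abs_of_pos hq0, div_le_iff₀ hq0, abs_mul]
    refine (mul_le_mul e1 e2 (abs_nonneg _) (by positivity)).trans (le_of_eq ?_)
    have := Real.mul_self_sqrt hq0.le
    linear_combination ((8 * f.natDegree + 12) * (8 * g.natDegree + 12) : ℝ) * this
  · rw [abs_zero]
    exact hB

/-- few zeros, as a mean value -/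
private lemma zero_mean (hF1 : StF1) (P : Py k m) (hP : P ≠ 0) :
    ∃ (C : ℝ) (R : Set (Pr k)), 0 ≤ C ∧ R.Finite ∧ ∀ v, v ∉ R →
      (∑ y : Fin m → Kv v, (if val v y P = 0 then (1 : ℝ) else 0)) / (q v : ℝ) ^ m * q v ≤ C := by
  obtain ⟨C, R, hC, hR, h⟩ := hF1 k m P hP
  refine ⟨C, R, hC, hR, fun v hv => ?_⟩
  have h1 := h v hv
  have hq := q_two_tf v
  have hq0 : (0 : ℝ) < (q v : ℝ) ^ m := by positivity
  rw [div_mul_eq_mul_div, div_le_iff₀ hq0]
  refine le_trans (le_of_eq ?_) h1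
  congr 1
  rw [Nat.card_eq_fintype_card, Fintype.card_subtype, Finset.sum_ite, Finset.sum_const_zero, add_zero,
    Finset.sum_const, nsmul_eq_mul, mul_one]

theorem hF8 (hA2 : StA2) (hA7 : StA7) (hA8 : StA8) (hF1 : StF1) (hF2 : StF2) (hF3 : StF3)
    (hF6 : StF6) (hF7 : StF7) : StF8 := by
  intro k _ _ m f g hf hg hfs hgs ι _ D hD hDD C R b hR hb
  have hs := (hA2 k).1
  have hl := (hA2 k).2
  have hq0 : ∀ v : Pr k, (0 : ℝ) < q v := fun v => by linarith [q_two_tf v]
  set B : ℝ := (8 * f.natDegree + 12) * (8 * g.natDegree + 12) with hB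
  have h2fin : {v : Pr k | (2 : 𝓞 k) ∈ v.asIdeal}.Finite := (hA7 k).1 2 two_ne_zero
  set V := Σ v : Pr k, (Fin m → Kv v) with hV
  -- means
  set μ : ι → Pr k → ℝ := fun i v =>
    (∑ y : Fin m → Kv v, cc f g ⟨v, y⟩ * xx (D i) ⟨v, y⟩) / (q v : ℝ) ^ m with hμ
  have hcx : ∀ i (z : V), |cc f g z * xx (D i) z| ≤ B := fun i z => by
    rw [abs_mul]
    exact (mul_le_of_le_one_right (abs_nonneg _) (xx_abs _ _)).trans (cc_abs hF3 hf hg z)
  have hμB : ∀ i v, |μ i v| ≤ B := by
    intro i v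
    have hqm : (0 : ℝ) < (q v : ℝ) ^ m := pow_pos (hq0 v) m
    rw [abs_div, abs_of_pos hqm, div_le_iff₀ hqm]
    refine (Finset.abs_sum_le_sum_abs _ _).trans ?_
    refine (Finset.sum_le_sum fun y _ => hcx i ⟨v, y⟩).trans (le_of_eq ?_)
    rw [Finset.sum_const, Finset.card_univ, nsmul_eq_mul, ftcard_fun, mul_comm]
  -- Gram matrix
  have hgram : ∀ i j, Tendsto (fun s : ℝ => ∑' z : V, (s - 1) * wt s z.1 / (q z.1 : ℝ) ^ m *
      (xx (D i) z * xx (D j) z)) (𝓝[>] 1) (𝓝 (if i = j then 1 else 0)) := by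
    intro i j
    have hxx1 : ∀ z : V, |xx (D i) z * xx (D j) z| ≤ 1 := fun z => by
      rw [abs_mul]
      exact mul_le_one₀ (xx_abs _ _) (abs_nonneg _) (xx_abs _ _)
    have e1 : ∀ᶠ s : ℝ in 𝓝[>] 1, (s - 1) * ∑' v : Pr k,
        ((∑ y : Fin m → Kv v, xx (D i) ⟨v, y⟩ * xx (D j) ⟨v, y⟩) / (q v : ℝ) ^ m) * wt s v =
        ∑' z : V, (s - 1) * wt s z.1 / (q z.1 : ℝ) ^ m * (xx (D i) z * xx (D j) z) := by
      filter_upwards [self_mem_nhdsWithin] with s hs1
      exact ((sig_tf hA2 hs1 (fun z => xx (D i) z * xx (D j) z) 1 hxx1).2).symm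
    refine Tendsto.congr' e1 ?_
    have habs : ∀ v : Pr k, |(∑ y : Fin m → Kv v, xx (D i) ⟨v, y⟩ * xx (D j) ⟨v, y⟩) /
        (q v : ℝ) ^ m| ≤ 1 := by
      intro v
      have hqm : (0 : ℝ) < (q v : ℝ) ^ m := pow_pos (hq0 v) m
      rw [abs_div, abs_of_pos hqm, div_le_iff₀ hqm, one_mul]
      refine (Finset.abs_sum_le_sum_abs _ _).trans ?_
      refine (Finset.sum_le_sum fun y _ => hxx1 ⟨v, y⟩).trans (le_of_eq ?_)
      rw [Finset.sum_const, Finset.card_univ, nsmul_eq_mul, ftcard_fun, mul_one]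
    split_ifs with hij
    · subst hij
      obtain ⟨C1, R1, hC1, hR1, h1⟩ := zero_mean hF1 (D i) (hD i)
      -- the defect
      set a : Pr k → ℝ := fun v => 1 - (∑ y : Fin m → Kv v, xx (D i) ⟨v, y⟩ * xx (D i) ⟨v, y⟩) /
        (q v : ℝ) ^ m with ha
      have hn := null_tf hA2 a 2 C1 (R1 ∪ {v : Pr k | (2 : 𝓞 k) ∈ v.asIdeal}) (hR1.union h2fin)
        (fun v => by
          have h3 := abs_le.1 (habs v)
          exact abs_le.2 ⟨by simp only [ha]; linarith [h3.2], by simp only [ha]; linarith [h3.1]⟩)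
        (fun v hv => by
          have hv1 : v ∉ R1 := fun h => hv (Or.inl h)
          have hv2 : (2 : 𝓞 k) ∉ v.asIdeal := fun h => hv (Or.inr h)
          have hqm : (0 : ℝ) < (q v : ℝ) ^ m := pow_pos (hq0 v) m
          have e2 : a v = (∑ y : Fin m → Kv v, (if val v y (D i) = 0 then (1 : ℝ) else 0)) /
              (q v : ℝ) ^ m := by
            have e3 : (1 : ℝ) = (∑ y : Fin m → Kv v, (1 : ℝ)) / (q v : ℝ) ^ m := by
              rw [Finset.sum_const, Finset.card_univ, nsmul_eq_mul, ftcard_fun, mul_one,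
                div_self hqm.ne']
            simp only [ha]
            rw [show (1 : ℝ) - (∑ y : Fin m → Kv v, xx (D i) ⟨v, y⟩ * xx (D i) ⟨v, y⟩) /
              (q v : ℝ) ^ m = (∑ y : Fin m → Kv v, (1 : ℝ)) / (q v : ℝ) ^ m -
              (∑ y : Fin m → Kv v, xx (D i) ⟨v, y⟩ * xx (D i) ⟨v, y⟩) / (q v : ℝ) ^ m by
                rw [← e3], ← sub_div, ← Finset.sum_sub_distrib]
            congr 1
            refine Finset.sum_congr rfl fun y _ => ?_
            unfold xx chF
            rw [if_neg hv2]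
            split_ifs <;> norm_num
          have h4 := h1 v hv1
          rw [← e2] at h4
          have h5 : 0 ≤ a v := by
            rw [e2]
            exact div_nonneg (Finset.sum_nonneg fun y _ => by split_ifs <;> norm_num) hqm.le
          rw [abs_of_nonneg h5]
          refine le_trans (mul_le_mul_of_nonneg_left ?_ h5) h4
          rw [Real.sqrt_le_left (hq0 v).le]
          nlinarith [q_two_tf v])
      have h6 := hl.sub hn
      rw [sub_zero] at h6
      refine h6.congr' ?_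
      filter_upwards [self_mem_nhdsWithin] with s hs1
      have hs2 : (1 : ℝ) < s := hs1
      rw [← mul_sub, ← Summable.tsum_sub (hs s hs2)]
      · congr 1
        refine tsum_congr fun v => ?_
        simp only [ha]
        ring
      · refine ((hs s hs2).mul_left 2).of_norm_bounded fun v => ?_
        rw [norm_mul, Real.norm_of_nonneg (wt_nonneg_tf s v), Real.norm_eq_abs]
        refine mul_le_mul_of_nonneg_right ?_ (wt_nonneg_tf s v)
        have h3 := abs_le.1 (habs v)
        exact abs_le.2 ⟨by simp only [ha]; linarith [h3.2], by simp only [ha]; linarith [h3.1]⟩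
    · have hne : D i * D j ≠ 0 := mul_ne_zero (hD i) (hD j)
      have h1 := hF6 k m (D i * D j) hne (hDD i j hij)
      -- difference with av
      set a : Pr k → ℝ := fun v => (∑ y : Fin m → Kv v, xx (D i) ⟨v, y⟩ * xx (D j) ⟨v, y⟩) /
        (q v : ℝ) ^ m - av (D i * D j) v with ha
      have hav : ∀ v, |av (D i * D j) v| ≤ 1 := by
        intro v
        have hqm : (0 : ℝ) < (q v : ℝ) ^ m := pow_pos (hq0 v) m
        unfold av
        rw [finsum_eq_sum_of_fintype, abs_div, abs_of_pos hqm, div_le_iff₀ hqm, one_mul]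
        refine (Finset.abs_sum_le_sum_abs _ _).trans ?_
        refine (Finset.sum_le_sum fun y _ => chF_abs _ _).trans (le_of_eq ?_)
        rw [Finset.sum_const, Finset.card_univ, nsmul_eq_mul, ftcard_fun, mul_one]
      have hn := null_tf hA2 a 2 0 {v : Pr k | (2 : 𝓞 k) ∈ v.asIdeal} h2fin
        (fun v => by
          have h3 := abs_le.1 (habs v)
          have h4 := abs_le.1 (hav v)
          exact abs_le.2 ⟨by simp only [ha]; linarith [h3.1, h4.2],
            by simp only [ha]; linarith [h3.2, h4.1]⟩)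
        (fun v hv => by
          have hv2 : (2 : 𝓞 k) ∉ v.asIdeal := hv
          have e2 : a v = 0 := by
            simp only [ha]
            unfold av
            rw [finsum_eq_sum_of_fintype, ← sub_div, ← Finset.sum_sub_distrib]
            rw [Finset.sum_eq_zero, zero_div]
            intro y _
            unfold xx
            rw [if_neg hv2, if_neg hv2, map_mul, (hF3 k v hv2).1, sub_self]
          rw [e2, abs_zero, zero_mul])
      have h6 := hn.add h1
      rw [add_zero] at h6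
      refine h6.congr' ?_
      filter_upwards [self_mem_nhdsWithin] with s hs1
      have hs2 : (1 : ℝ) < s := hs1
      rw [← mul_add, ← Summable.tsum_add]
      · congr 1
        refine tsum_congr fun v => ?_
        simp only [ha]
        ring
      · refine ((hs s hs2).mul_left 2).of_norm_bounded fun v => ?_
        rw [norm_mul, Real.norm_of_nonneg (wt_nonneg_tf s v), Real.norm_eq_abs]
        refine mul_le_mul_of_nonneg_right ?_ (wt_nonneg_tf s v)
        have h3 := abs_le.1 (habs v)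
        have h4 := abs_le.1 (hav v)
        exact abs_le.2 ⟨by simp only [ha]; linarith [h3.1, h4.2],
          by simp only [ha]; linarith [h3.2, h4.1]⟩
      · refine ((hs s hs2).mul_left 1).of_norm_bounded fun v => ?_
        rw [norm_mul, Real.norm_of_nonneg (wt_nonneg_tf s v), Real.norm_eq_abs]
        exact mul_le_mul_of_nonneg_right (hav v) (wt_nonneg_tf s v)
  -- Bessel
  have hbes := hA8 V ι (fun s z => (s - 1) * wt s z.1 / (q z.1 : ℝ) ^ m) (cc f g)
    (fun i z => xx (D i) z) B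
    (by
      filter_upwards [self_mem_nhdsWithin] with s hs1
      have hs2 : (1 : ℝ) < s := hs1
      refine ⟨fun z => div_nonneg (mul_nonneg (by linarith) (wt_nonneg_tf s z.1))
        (pow_nonneg (hq0 z.1).le m), ?_⟩
      have h := (sig_tf (k := k) (m := m) hA2 hs2 (fun _ => (1 : ℝ)) 1 (fun _ => by simp)).1
      simpa using h)
    (by
      refine hl.congr' ?_
      filter_upwards [self_mem_nhdsWithin] with s hs1
      have hs2 : (1 : ℝ) < s := hs1
      have h := (sig_tf (k := k) (m := m) hA2 hs2 (fun _ => (1 : ℝ)) 1 (fun _ => by simp)).2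
      simp only [mul_one] at h
      rw [h]
      congr 1
      refine tsum_congr fun v => ?_
      rw [Finset.sum_const, Finset.card_univ, nsmul_eq_mul, ftcard_fun, mul_one,
        div_self (pow_pos (hq0 v) m).ne', one_mul])
    (fun z => cc_abs hF3 hf hg z) (fun i z => xx_abs _ _) hgram
  have hbes' : ∀ ε > 0, ∀ᶠ s : ℝ in 𝓝[>] 1,
      ∑ i, ((s - 1) * ∑' v : Pr k, μ i v * wt s v) ^ 2 ≤ B ^ 2 + ε := by
    intro ε hε
    filter_upwards [hbes ε hε, self_mem_nhdsWithin] with s h1 hs1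
    have hs2 : (1 : ℝ) < s := hs1
    refine le_trans (le_of_eq ?_) h1
    refine Finset.sum_congr rfl fun i _ => ?_
    rw [(sig_tf hA2 hs2 (fun z => cc f g z * xx (D i) z) B (hcx i)).2]
  -- comparison with the mean over the smooth fibres
  have hf0 : f ≠ 0 := fun h => by simp [h] at hf
  have hg0 : g ≠ 0 := fun h => by simp [h] at hg
  obtain ⟨Pf, hPf, hPf'⟩ := hF2 k m f hf0 hfs
  obtain ⟨Pg, hPg, hPg'⟩ := hF2 k m g hg0 hgs
  choose Cz Rz hCz hRz hz using fun i =>
    zero_mean hF1 (D i * (Pf * Pg)) (mul_ne_zero (hD i) (mul_ne_zero hPf hPg))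
  set R' : Set (Pr k) := (R ∪ {v : Pr k | (2 : 𝓞 k) ∈ v.asIdeal}) ∪ ⋃ i, Rz i with hR'
  have hR'f : R'.Finite := (hR.union h2fin).union (Set.finite_iUnion hRz)
  refine hF7 k ι μ B hμB hbes' (C + 2 * ∑ i, Cz i) R' b hR'f fun i v hv => ?_
  have hvR : v ∉ R := fun h => hv (Or.inl (Or.inl h))
  have hv2 : (2 : 𝓞 k) ∉ v.asIdeal := fun h => hv (Or.inl (Or.inr h))
  have hvz : v ∉ Rz i := fun h => hv (Or.inr (Set.mem_iUnion.2 ⟨i, h⟩))
  have hqm : (0 : ℝ) < (q v : ℝ) ^ m := pow_pos (hq0 v) m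
  obtain ⟨-, h3t, -, -, -⟩ := hF3 k v hv2
  -- termwise
  have hterm : ∀ y : Fin m → Kv v, |(2 * (q v : ℝ) + cc f g ⟨v, y⟩ * xx (D i) ⟨v, y⟩ * q v) -
      (if Good (D i) f g v y then
        (2 * (q v : ℝ) + trF v (Polynomial.C (val v y (D i)) * fib f v y) * trF v (fib g v y)) else 0)| ≤
      2 * q v * (if val v y (D i * (Pf * Pg)) = 0 then (1 : ℝ) else 0) := by
    intro y
    by_cases hG : Good (D i) f g v y
    · rw [if_pos hG]
      obtain ⟨hG1, hG2⟩ := hG
      have e1 : cc f g ⟨v, y⟩ = (trF v (fib f v y) * trF v (fib g v y) : ℝ) / q v :=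
        if_pos ⟨hv2, hG2⟩
      have e2 : xx (D i) ⟨v, y⟩ = chF v (val v y (D i)) := if_neg hv2
      rw [e1, e2, h3t _ _ hG1]
      have e3 : (2 * (q v : ℝ) + (trF v (fib f v y) * trF v (fib g v y) : ℝ) / q v *
          chF v (val v y (D i)) * q v) - (2 * (q v : ℝ) +
          chF v (val v y (D i)) * trF v (fib f v y) * trF v (fib g v y)) = 0 := by
        have hqne : (q v : ℝ) ≠ 0 := (hq0 v).ne'
        rw [div_mul_eq_mul_div, div_mul_cancel₀ _ hqne]
        ring
      rw [e3, abs_zero]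
      have := (hq0 v).le
      split_ifs <;> positivity
    · rw [if_neg hG, sub_zero]
      have hbad : val v y (D i * (Pf * Pg)) = 0 := by
        by_contra hne
        rw [map_mul, map_mul] at hne
        have n1 : val v y (D i) ≠ 0 := left_ne_zero_of_mul hne
        have n2 : val v y Pf ≠ 0 := left_ne_zero_of_mul (right_ne_zero_of_mul hne)
        have n3 : val v y Pg ≠ 0 := right_ne_zero_of_mul (right_ne_zero_of_mul hne)
        exact hG ⟨n1, hPf' v y n2, hPg' v y n3⟩
      rw [if_pos hbad, mul_one]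
      have hz0 : cc f g ⟨v, y⟩ * xx (D i) ⟨v, y⟩ = 0 := by
        by_cases h1 : val v y (D i) = 0
        · have e2 : xx (D i) ⟨v, y⟩ = 0 := by
            unfold xx chF
            rw [if_neg hv2, if_pos h1]
          rw [e2, mul_zero]
        · have e1 : cc f g ⟨v, y⟩ = 0 := if_neg fun h => hG ⟨h1, h.2⟩
          rw [e1, zero_mul]
      rw [hz0, zero_mul, add_zero, abs_of_pos (by linarith [hq0 v])]
  have hmain : |(2 * (q v : ℝ) + μ i v * q v) - BB (D i) f g v| ≤ 2 * Cz i := by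
    have e1 : (2 * (q v : ℝ) + μ i v * q v) = (∑ y : Fin m → Kv v,
        (2 * (q v : ℝ) + cc f g ⟨v, y⟩ * xx (D i) ⟨v, y⟩ * q v)) / (q v : ℝ) ^ m := by
      rw [Finset.sum_add_distrib, Finset.sum_const, Finset.card_univ, nsmul_eq_mul, ftcard_fun,
        ← Finset.sum_mul, add_div, mul_div_cancel_left₀ _ hqm.ne']
      simp only [hμ]
      ring
    rw [e1]
    unfold BB
    rw [finsum_eq_sum_of_fintype, ← sub_div, ← Finset.sum_sub_distrib, abs_div,
      abs_of_pos hqm, div_le_iff₀ hqm]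
    refine (Finset.abs_sum_le_sum_abs _ _).trans ?_
    refine (Finset.sum_le_sum fun y _ => hterm y).trans ?_
    rw [← Finset.mul_sum]
    have h4 := hz i v hvz
    rw [div_mul_eq_mul_div, div_le_iff₀ hqm] at h4
    linarith
  have h5 : Cz i ≤ ∑ i, Cz i := Finset.single_le_sum (fun i _ => hCz i) (Finset.mem_univ i)
  have h6 := hb i v hvR
  have h7 := abs_le.1 hmain
  have h8 := abs_le.1 h6
  exact abs_le.2 ⟨by linarith [h7.1, h7.2, h8.1], by linarith [h7.1, h7.2, h8.2]⟩

end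

end Pool.Agent.Helper24.TF
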