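import Pool.Agent.Helper24.TF.M_F8

/-!
# Project TF: F7 with a general constant, F8 with an abstract Weil constant, the Bessel inequality for arbitrary bounded
coefficients
-/

set_option autoImplicit false

namespace Pool.Agent.Helper24.TF

open NumberField IsDedekindDomain Polynomial Filter Topology
open Pool.Agent.Helper95.TT
open scoped Classical

noncomputable section

/-- **F7r**: F7 with a general constant `ρ` in place of `2` -/
def StF7r : Prop := ∀ (k : Type) [Field k] [NumberField k] (ι : Type) [Fintype ι] (μ : ι → Pr k → ℝ)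
  (ρ B : ℝ), (∀ i v, |μ i v| ≤ B) →
  (∀ ε > 0, ∀ᶠ s : ℝ in 𝓝[>] 1, ∑ i, ((s - 1) * ∑' v : Pr k, μ i v * wt s v) ^ 2 ≤ B ^ 2 + ε) →
  ∀ (C : ℝ) (R : Set (Pr k)) (b : ι → Pr k → ℝ), R.Finite →
  (∀ i, ∀ v, v ∉ R → |b i v - (ρ * q v + μ i v * q v)| ≤ C) →
  (∀ i, ∀ s : ℝ, 2 < s → Summable (fun v : Pr k => b i v * Real.log (q v) * (q v : ℝ) ^ (-s))) ∧
  ∀ ε > 0, ∀ᶠ s : ℝ in 𝓝[>] 2,
    ∑ i, ((s - 2) * (∑' v : Pr k, b i v * Real.log (q v) * (q v : ℝ) ^ (-s)) - ρ) ^ 2 ≤ B ^ 2 + ε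

/-- **F8a**: Bessel's inequality for arbitrary bounded coefficients on the pairs `(v, y)` -/
def StF8a : Prop := ∀ (k : Type) [Field k] [NumberField k] (m : ℕ) (c : (v : Pr k) → (Fin m → Kv v) → ℝ)
  (B : ℝ), (∀ v y, |c v y| ≤ B) → ∀ (ι : Type) [Fintype ι] (D : ι → Py k m), (∀ i, D i ≠ 0) →
  (∀ i j, i ≠ j → ¬ IsSquare (algebraMap (Py k m) (Ky k m) (D i * D j))) →
  ∀ ε > 0, ∀ᶠ s : ℝ in 𝓝[>] 1,
    ∑ i, ((s - 1) * ∑' v : Pr k, (∑ᶠ y : Fin m → Kv v, c v y * chF v (val v y (D i))) / (q v : ℝ) ^ m * wt s v) ^ 2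
      ≤ B ^ 2 + ε

/-- a bound for the trace of Frobenius on `H¹` of the curves `z² = h(x)` over the residue fields, depending only on the
degree of `h` -/
def BdW (w : ℕ → ℝ) : Prop := (∀ d, 0 ≤ w d) ∧
  ∀ (k : Type) [Field k] [NumberField k] (v : Pr k), (2 : 𝓞 k) ∉ v.asIdeal →
    ∀ h : (Kv v)[X], 1 ≤ h.natDegree → Squarefree h → |(trF v h : ℝ)| ≤ w h.natDegree * √(q v)

/-- **F8w**: the main theorem with an abstract Weil constant -/
def StF8w (w : ℕ → ℝ) : Prop := ∀ (k : Type) [Field k] [NumberField k] (m : ℕ) (f g : (Py k m)[X]),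
  1 ≤ f.natDegree → 1 ≤ g.natDegree → (f.map (algebraMap (Py k m) (Ky k m))).Separable →
  (g.map (algebraMap (Py k m) (Ky k m))).Separable →
  ∀ (ι : Type) [Fintype ι] (D : ι → Py k m), (∀ i, D i ≠ 0) →
  (∀ i j, i ≠ j → ¬ IsSquare (algebraMap (Py k m) (Ky k m) (D i * D j))) →
  ∀ (C : ℝ) (R : Set (Pr k)) (b : ι → Pr k → ℝ), R.Finite →
  (∀ i, ∀ v, v ∉ R → |b i v - BB (D i) f g v| ≤ C) →
  (∀ i, ∀ s : ℝ, 2 < s → Summable (fun v : Pr k => b i v * Real.log (q v) * (q v : ℝ) ^ (-s))) ∧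
  ∀ ε > 0, ∀ᶠ s : ℝ in 𝓝[>] 2,
    ∑ i, ((s - 2) * (∑' v : Pr k, b i v * Real.log (q v) * (q v : ℝ) ^ (-s)) - 2) ^ 2 ≤
      (w f.natDegree * w g.natDegree) ^ 2 + ε

variable {k : Type} [Field k] [NumberField k] {m : ℕ}

private lemma q_wt (s : ℝ) (v : Pr k) :
    (q v : ℝ) * (Real.log (q v) * (q v : ℝ) ^ (-s)) = wt (s - 1) v := by
  have h : 0 < (q v : ℝ) := by linarith [q_two_tf v]
  unfold wt
  rw [show -(s - 1) = -s + 1 by ring, Real.rpow_add h, Real.rpow_one]
  ring

theorem hF7r (hA2 : StA2) : StF7r := by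
  intro k _ _ ι _ μ ρ B hμ hbes C R b hR hb
  have hs := (hA2 k).1
  have hl := (hA2 k).2
  set L : ℝ → ℝ := fun s => ∑' v : Pr k, wt s v with hL
  -- the bounded remainder
  set r : ι → Pr k → ℝ := fun i v => b i v - (ρ * q v + μ i v * q v) with hr
  have hM : ∀ i, ∃ M : ℝ, 0 ≤ M ∧ ∀ v, |r i v| ≤ M := by
    intro i
    refine ⟨|C| + ∑ v ∈ hR.toFinset, |r i v|, by positivity, fun v => ?_⟩
    by_cases hv : v ∈ R
    · have h1 : |r i v| ≤ ∑ v ∈ hR.toFinset, |r i v| :=
        Finset.single_le_sum (f := fun v => |r i v|) (fun _ _ => abs_nonneg _)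
          (hR.mem_toFinset.2 hv)
      linarith [abs_nonneg C]
    · have h1 : |r i v| ≤ C := hb i v hv
      have h2 : 0 ≤ ∑ v ∈ hR.toFinset, |r i v| := Finset.sum_nonneg fun _ _ => abs_nonneg _
      linarith [le_abs_self C]
  choose M hM0 hM using hM
  have hrs : ∀ i, ∀ s : ℝ, 1 < s → Summable (fun v : Pr k => r i v * wt s v) := fun i s h1 =>
    ((hs s h1).mul_left (M i)).of_norm_bounded fun v => by
      rw [norm_mul, Real.norm_eq_abs, Real.norm_of_nonneg (wt_nonneg_tf s v)]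
      exact mul_le_mul_of_nonneg_right (hM i v) (wt_nonneg_tf s v)
  have hcs : ∀ i, ∀ s : ℝ, 1 < s → Summable (fun v : Pr k => μ i v * wt s v) :=
    fun i s h1 => ((hs s h1).mul_left B).of_norm_bounded fun v => by
      rw [norm_mul, Real.norm_of_nonneg (wt_nonneg_tf s v), Real.norm_eq_abs]
      exact mul_le_mul_of_nonneg_right (hμ i v) (wt_nonneg_tf s v)
  -- decomposition of the series
  have hdec : ∀ i v, ∀ s : ℝ, b i v * Real.log (q v) * (q v : ℝ) ^ (-s) =
      ρ * wt (s - 1) v + μ i v * wt (s - 1) v + r i v * wt s v := by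
    intro i v s
    have h1 := q_wt s v
    have h2 : b i v = r i v + (ρ * q v + μ i v * q v) := by
      simp only [hr]
      ring
    rw [h2, ← h1]
    unfold wt
    ring
  have hsum : ∀ i, ∀ s : ℝ, 2 < s →
      Summable (fun v : Pr k => b i v * Real.log (q v) * (q v : ℝ) ^ (-s)) := by
    intro i s h
    simp only [hdec]
    exact (((hs (s - 1) (by linarith)).mul_left ρ).add (hcs i (s - 1) (by linarith))).add
      (hrs i s (by linarith))
  refine ⟨hsum, fun ε hε => ?_⟩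
  set Y : ι → ℝ → ℝ := fun i s => (s - 1) * ∑' v : Pr k, μ i v * wt s v with hY
  set E : ι → ℝ → ℝ := fun i s => (s - 2) * ∑' v : Pr k, r i v * wt s v with hE
  have hshift : Tendsto (fun s : ℝ => s - 1) (𝓝[>] 2) (𝓝[>] 1) := by
    refine tendsto_nhdsWithin_iff.2 ⟨?_, ?_⟩
    · have h : Tendsto (fun s : ℝ => s - 1) (𝓝 2) (𝓝 (2 - 1)) :=
        (continuous_id.sub continuous_const).tendsto 2
      rw [show (2 : ℝ) - 1 = 1 by norm_num] at h
      exact h.mono_left nhdsWithin_le_nhds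
    · filter_upwards [self_mem_nhdsWithin] with s hs1
      have : (2 : ℝ) < s := hs1
      show (1 : ℝ) < s - 1
      linarith
  have hval : ∀ i, ∀ s : ℝ, 2 < s →
      (s - 2) * (∑' v : Pr k, b i v * Real.log (q v) * (q v : ℝ) ^ (-s)) - ρ =
      Y i (s - 1) + (ρ * ((s - 1 - 1) * L (s - 1) - 1) + E i s) := by
    intro i s h
    simp only [hdec]
    rw [Summable.tsum_add (((hs (s - 1) (by linarith)).mul_left ρ).add
        (hcs i (s - 1) (by linarith))) (hrs i s (by linarith)),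
      Summable.tsum_add ((hs (s - 1) (by linarith)).mul_left ρ) (hcs i (s - 1) (by linarith)),
      tsum_mul_left]
    simp only [hE, hL, hY]
    ring
  -- the error tends to zero
  have hEl : ∀ i, Tendsto (E i) (𝓝[>] 2) (𝓝 0) := by
    intro i
    have h1 : Tendsto (fun s : ℝ => (s - 2) * (M i * L 2)) (𝓝[>] 2) (𝓝 0) := by
      have h : Tendsto (fun s : ℝ => (s - 2) * (M i * L 2)) (𝓝 2) (𝓝 ((2 - 2) * (M i * L 2))) :=
        ((continuous_id.sub continuous_const).mul continuous_const).tendsto 2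
      rw [sub_self, zero_mul] at h
      exact h.mono_left nhdsWithin_le_nhds
    refine squeeze_zero_norm' ?_ h1
    filter_upwards [self_mem_nhdsWithin] with s hs1
    have hs2 : (2 : ℝ) < s := hs1
    rw [norm_mul, Real.norm_of_nonneg (by linarith)]
    refine mul_le_mul_of_nonneg_left ?_ (by linarith)
    rw [hL, ← tsum_mul_left]
    refine tsum_of_norm_bounded ((hs 2 (by norm_num)).mul_left (M i)).hasSum fun v => ?_
    rw [norm_mul, Real.norm_eq_abs, Real.norm_of_nonneg (wt_nonneg_tf s v)]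
    exact mul_le_mul (hM i v) (wt_anti_tf hs2.le v) (wt_nonneg_tf s v) (hM0 i)
  set e : ι → ℝ → ℝ := fun i s => ρ * ((s - 1 - 1) * L (s - 1) - 1) + E i s with he
  have hel : ∀ i, Tendsto (e i) (𝓝[>] 2) (𝓝 0) := by
    intro i
    have h1 : Tendsto (fun s : ℝ => (s - 1 - 1) * L (s - 1)) (𝓝[>] 2) (𝓝 1) := hl.comp hshift
    have h2 := ((h1.sub_const 1).const_mul ρ).add (hEl i)
    rw [show ρ * (1 - 1) + 0 = 0 by ring] at h2
    exact h2
  have htot : Tendsto (fun s => ∑ i, (4 * |B| * |e i s| + e i s ^ 2)) (𝓝[>] 2) (𝓝 0) := by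
    have h1 : Tendsto (fun s => ∑ i, (4 * |B| * |e i s| + e i s ^ 2)) (𝓝[>] 2)
        (𝓝 (∑ i : ι, (4 * |B| * |(0 : ℝ)| + 0 ^ 2))) :=
      tendsto_finsetSum _ fun i _ => (((hel i).abs).const_mul _).add ((hel i).pow 2)
    simpa using h1
  have hbes' := hbes (ε / 2) (by positivity)
  have hYb : ∀ᶠ s : ℝ in 𝓝[>] 1, ∀ i, |Y i s| ≤ 2 * |B| := by
    have h1 : ∀ᶠ s : ℝ in 𝓝[>] 1, (s - 1) * L s < 2 := hl.eventually_lt_const (by norm_num)
    filter_upwards [h1, self_mem_nhdsWithin] with s hs1 hs2 i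
    have hs3 : (1 : ℝ) < s := hs2
    have h2 : |Y i s| ≤ |B| * ((s - 1) * L s) := by
      simp only [hY, hL]
      rw [abs_mul, abs_of_pos (by linarith : (0 : ℝ) < s - 1)]
      have h3 : |∑' v : Pr k, μ i v * wt s v| ≤ |B| * ∑' v : Pr k, wt s v := by
        rw [← tsum_mul_left, ← Real.norm_eq_abs]
        refine tsum_of_norm_bounded ((hs s hs3).mul_left |B|).hasSum fun v => ?_
        rw [norm_mul, Real.norm_of_nonneg (wt_nonneg_tf s v), Real.norm_eq_abs]
        exact mul_le_mul_of_nonneg_right ((hμ i v).trans (le_abs_self B)) (wt_nonneg_tf s v)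
      have h4 := mul_le_mul_of_nonneg_left h3 (by linarith : (0 : ℝ) ≤ s - 1)
      linarith
    have h3 : |B| * ((s - 1) * L s) ≤ |B| * 2 := mul_le_mul_of_nonneg_left hs1.le (abs_nonneg B)
    linarith
  filter_upwards [hshift.eventually hbes', hshift.eventually hYb, self_mem_nhdsWithin,
    htot.eventually_lt_const (show (0 : ℝ) < ε / 2 by positivity)] with s h1 h2 h3 h4
  have h5 : (2 : ℝ) < s := h3
  have h6 : ∀ i, ((s - 2) * (∑' v : Pr k, b i v * Real.log (q v) * (q v : ℝ) ^ (-s)) - ρ) ^ 2 ≤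
      Y i (s - 1) ^ 2 + (4 * |B| * |e i s| + e i s ^ 2) := by
    intro i
    rw [hval i s h5]
    have h7 := h2 i
    have h8 : Y i (s - 1) * e i s ≤ 2 * |B| * |e i s| := by
      refine (le_abs_self _).trans ?_
      rw [abs_mul]
      exact mul_le_mul_of_nonneg_right h7 (abs_nonneg _)
    show (Y i (s - 1) + e i s) ^ 2 ≤ _
    nlinarith
  refine (Finset.sum_le_sum fun i _ => h6 i).trans ?_
  rw [Finset.sum_add_distrib]
  have h9 : ∑ i, Y i (s - 1) ^ 2 ≤ B ^ 2 + ε / 2 := h1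
  linarith

/-- few zeros, as a mean value -/
private lemma zero_mean (hF1 : StF1) (P : Py k m) (hP : P ≠ 0) :
    ∃ (C : ℝ) (R : Set (Pr k)), 0 ≤ C ∧ R.Finite ∧ ∀ v, v ∉ R →
      (∑ y : Fin m → Kv v, (if val v y P = 0 then (1 : ℝ) else 0)) / (q v : ℝ) ^ m * q v ≤ C := by
  obtain ⟨C, R, hC, hR, h⟩ := hF1 k m P hP
  refine ⟨C, R, hC, hR, fun v hv => ?_⟩
  have h1 := h v hv
  have hq := q_two_tf v
  have hq0 : (0 : ℝ) < (q v : ℝ) ^ m := by positivity
  rw [div_mul_eq_mul_div, div_le_iff₀ hq0]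
  refine le_trans (le_of_eq ?_) h1
  congr 1
  rw [Nat.card_eq_fintype_card, Fintype.card_subtype, Finset.sum_ite, Finset.sum_const_zero, add_zero,
    Finset.sum_const, nsmul_eq_mul, mul_one]

/-- the character on the pairs -/
def ch (D : Py k m) (z : Σ v : Pr k, (Fin m → Kv v)) : ℝ := chF z.1 (val z.1 z.2 D)

private lemma ch_abs (D : Py k m) (z : Σ v : Pr k, (Fin m → Kv v)) : |ch D z| ≤ 1 := chF_abs _ _

theorem hF8a (hA2 : StA2) (hA7 : StA7) (hA8 : StA8) (hF1 : StF1) (hF3 : StF3) (hF6 : StF6) :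
    StF8a := by
  intro k _ _ m c B hc ι _ D hD hDD
  have hs := (hA2 k).1
  have hl := (hA2 k).2
  have hq0 : ∀ v : Pr k, (0 : ℝ) < q v := fun v => by linarith [q_two_tf v]
  have h2fin : {v : Pr k | (2 : 𝓞 k) ∈ v.asIdeal}.Finite := (hA7 k).1 2 two_ne_zero
  set V := Σ v : Pr k, (Fin m → Kv v) with hV
  -- means
  set μ : ι → Pr k → ℝ := fun i v =>
    (∑ y : Fin m → Kv v, c v y * ch (D i) ⟨v, y⟩) / (q v : ℝ) ^ m with hμ
  have hcx : ∀ i (z : V), |c z.1 z.2 * ch (D i) z| ≤ B := fun i z => by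
    rw [abs_mul]
    exact (mul_le_of_le_one_right (abs_nonneg _) (ch_abs _ _)).trans (hc z.1 z.2)
  -- Gram matrix
  have hgram : ∀ i j, Tendsto (fun s : ℝ => ∑' z : V, (s - 1) * wt s z.1 / (q z.1 : ℝ) ^ m *
      (ch (D i) z * ch (D j) z)) (𝓝[>] 1) (𝓝 (if i = j then 1 else 0)) := by
    intro i j
    have hxx1 : ∀ z : V, |ch (D i) z * ch (D j) z| ≤ 1 := fun z => by
      rw [abs_mul]
      exact mul_le_one₀ (ch_abs _ _) (abs_nonneg _) (ch_abs _ _)
    have e1 : ∀ᶠ s : ℝ in 𝓝[>] 1, (s - 1) * ∑' v : Pr k,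
        ((∑ y : Fin m → Kv v, ch (D i) ⟨v, y⟩ * ch (D j) ⟨v, y⟩) / (q v : ℝ) ^ m) * wt s v =
        ∑' z : V, (s - 1) * wt s z.1 / (q z.1 : ℝ) ^ m * (ch (D i) z * ch (D j) z) := by
      filter_upwards [self_mem_nhdsWithin] with s hs1
      exact ((sig_tf hA2 hs1 (fun z => ch (D i) z * ch (D j) z) 1 hxx1).2).symm
    refine Tendsto.congr' e1 ?_
    have habs : ∀ v : Pr k, |(∑ y : Fin m → Kv v, ch (D i) ⟨v, y⟩ * ch (D j) ⟨v, y⟩) /
        (q v : ℝ) ^ m| ≤ 1 := by
      intro v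
      have hqm : (0 : ℝ) < (q v : ℝ) ^ m := pow_pos (hq0 v) m
      rw [abs_div, abs_of_pos hqm, div_le_iff₀ hqm, one_mul]
      refine (Finset.abs_sum_le_sum_abs _ _).trans ?_
      refine (Finset.sum_le_sum fun y _ => hxx1 ⟨v, y⟩).trans (le_of_eq ?_)
      rw [Finset.sum_const, Finset.card_univ, nsmul_eq_mul, ftcard_fun, mul_one]
    split_ifs with hij
    · subst hij
      obtain ⟨C1, R1, hC1, hR1, h1⟩ := zero_mean hF1 (D i) (hD i)
      -- the defect
      set a : Pr k → ℝ := fun v => 1 - (∑ y : Fin m → Kv v, ch (D i) ⟨v, y⟩ * ch (D i) ⟨v, y⟩) /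
        (q v : ℝ) ^ m with ha
      have hn := null_tf hA2 a 2 C1 (R1 ∪ {v : Pr k | (2 : 𝓞 k) ∈ v.asIdeal}) (hR1.union h2fin)
        (fun v => by
          have h3 := abs_le.1 (habs v)
          exact abs_le.2 ⟨by simp only [ha]; linarith [h3.2], by simp only [ha]; linarith [h3.1]⟩)
        (fun v hv => by
          have hv1 : v ∉ R1 := fun h => hv (Or.inl h)
          have hqm : (0 : ℝ) < (q v : ℝ) ^ m := pow_pos (hq0 v) m
          have e2 : a v = (∑ y : Fin m → Kv v, (if val v y (D i) = 0 then (1 : ℝ) else 0)) /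
              (q v : ℝ) ^ m := by
            have e3 : (1 : ℝ) = (∑ y : Fin m → Kv v, (1 : ℝ)) / (q v : ℝ) ^ m := by
              rw [Finset.sum_const, Finset.card_univ, nsmul_eq_mul, ftcard_fun, mul_one,
                div_self hqm.ne']
            simp only [ha]
            rw [show (1 : ℝ) - (∑ y : Fin m → Kv v, ch (D i) ⟨v, y⟩ * ch (D i) ⟨v, y⟩) /
              (q v : ℝ) ^ m = (∑ y : Fin m → Kv v, (1 : ℝ)) / (q v : ℝ) ^ m -
              (∑ y : Fin m → Kv v, ch (D i) ⟨v, y⟩ * ch (D i) ⟨v, y⟩) / (q v : ℝ) ^ m by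
                rw [← e3], ← sub_div, ← Finset.sum_sub_distrib]
            congr 1
            refine Finset.sum_congr rfl fun y _ => ?_
            show (1 : ℝ) - chF v (val v y (D i)) * chF v (val v y (D i)) = _
            unfold chF
            split_ifs <;> norm_num
          have h4 := h1 v hv1
          rw [← e2] at h4
          have h5 : 0 ≤ a v := by
            rw [e2]
            exact div_nonneg (Finset.sum_nonneg fun y _ => by split_ifs <;> norm_num) hqm.le
          rw [abs_of_nonneg h5]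
          refine le_trans (mul_le_mul_of_nonneg_left ?_ h5) h4
          rw [Real.sqrt_le_left (hq0 v).le]
          nlinarith [q_two_tf v])
      have h6 := hl.sub hn
      rw [sub_zero] at h6
      refine h6.congr' ?_
      filter_upwards [self_mem_nhdsWithin] with s hs1
      have hs2 : (1 : ℝ) < s := hs1
      rw [← mul_sub, ← Summable.tsum_sub (hs s hs2)]
      · congr 1
        refine tsum_congr fun v => ?_
        simp only [ha]
        ring
      · refine ((hs s hs2).mul_left 2).of_norm_bounded fun v => ?_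
        rw [norm_mul, Real.norm_of_nonneg (wt_nonneg_tf s v), Real.norm_eq_abs]
        refine mul_le_mul_of_nonneg_right ?_ (wt_nonneg_tf s v)
        have h3 := abs_le.1 (habs v)
        exact abs_le.2 ⟨by simp only [ha]; linarith [h3.2], by simp only [ha]; linarith [h3.1]⟩
    · have hne : D i * D j ≠ 0 := mul_ne_zero (hD i) (hD j)
      have h1 := hF6 k m (D i * D j) hne (hDD i j hij)
      -- difference with av
      set a : Pr k → ℝ := fun v => (∑ y : Fin m → Kv v, ch (D i) ⟨v, y⟩ * ch (D j) ⟨v, y⟩) /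
        (q v : ℝ) ^ m - av (D i * D j) v with ha
      have hav : ∀ v, |av (D i * D j) v| ≤ 1 := by
        intro v
        have hqm : (0 : ℝ) < (q v : ℝ) ^ m := pow_pos (hq0 v) m
        unfold av
        rw [finsum_eq_sum_of_fintype, abs_div, abs_of_pos hqm, div_le_iff₀ hqm, one_mul]
        refine (Finset.abs_sum_le_sum_abs _ _).trans ?_
        refine (Finset.sum_le_sum fun y _ => chF_abs _ _).trans (le_of_eq ?_)
        rw [Finset.sum_const, Finset.card_univ, nsmul_eq_mul, ftcard_fun, mul_one]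
      have hn := null_tf hA2 a 2 0 {v : Pr k | (2 : 𝓞 k) ∈ v.asIdeal} h2fin
        (fun v => by
          have h3 := abs_le.1 (habs v)
          have h4 := abs_le.1 (hav v)
          exact abs_le.2 ⟨by simp only [ha]; linarith [h3.1, h4.2],
            by simp only [ha]; linarith [h3.2, h4.1]⟩)
        (fun v hv => by
          have hv2 : (2 : 𝓞 k) ∉ v.asIdeal := hv
          have e2 : a v = 0 := by
            simp only [ha]
            unfold av
            rw [finsum_eq_sum_of_fintype, ← sub_div, ← Finset.sum_sub_distrib]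
            rw [Finset.sum_eq_zero, zero_div]
            intro y _
            show chF v (val v y (D i)) * chF v (val v y (D j)) - _ = 0
            rw [map_mul, (hF3 k v hv2).1, sub_self]
          rw [e2, abs_zero, zero_mul])
      have h6 := hn.add h1
      rw [add_zero] at h6
      refine h6.congr' ?_
      filter_upwards [self_mem_nhdsWithin] with s hs1
      have hs2 : (1 : ℝ) < s := hs1
      rw [← mul_add, ← Summable.tsum_add]
      · congr 1
        refine tsum_congr fun v => ?_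
        simp only [ha]
        ring
      · refine ((hs s hs2).mul_left 2).of_norm_bounded fun v => ?_
        rw [norm_mul, Real.norm_of_nonneg (wt_nonneg_tf s v), Real.norm_eq_abs]
        refine mul_le_mul_of_nonneg_right ?_ (wt_nonneg_tf s v)
        have h3 := abs_le.1 (habs v)
        have h4 := abs_le.1 (hav v)
        exact abs_le.2 ⟨by simp only [ha]; linarith [h3.1, h4.2],
          by simp only [ha]; linarith [h3.2, h4.1]⟩
      · refine ((hs s hs2).mul_left 1).of_norm_bounded fun v => ?_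
        rw [norm_mul, Real.norm_of_nonneg (wt_nonneg_tf s v), Real.norm_eq_abs]
        exact mul_le_mul_of_nonneg_right (hav v) (wt_nonneg_tf s v)
  -- Bessel
  have hbes := hA8 V ι (fun s z => (s - 1) * wt s z.1 / (q z.1 : ℝ) ^ m) (fun z => c z.1 z.2)
    (fun i z => ch (D i) z) B
    (by
      filter_upwards [self_mem_nhdsWithin] with s hs1
      have hs2 : (1 : ℝ) < s := hs1
      refine ⟨fun z => div_nonneg (mul_nonneg (by linarith) (wt_nonneg_tf s z.1))
        (pow_nonneg (hq0 z.1).le m), ?_⟩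
      have h := (sig_tf (k := k) (m := m) hA2 hs2 (fun _ => (1 : ℝ)) 1 (fun _ => by simp)).1
      simpa using h)
    (by
      refine hl.congr' ?_
      filter_upwards [self_mem_nhdsWithin] with s hs1
      have hs2 : (1 : ℝ) < s := hs1
      have h := (sig_tf (k := k) (m := m) hA2 hs2 (fun _ => (1 : ℝ)) 1 (fun _ => by simp)).2
      simp only [mul_one] at h
      rw [h]
      congr 1
      refine tsum_congr fun v => ?_
      rw [Finset.sum_const, Finset.card_univ, nsmul_eq_mul, ftcard_fun, mul_one,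
        div_self (pow_pos (hq0 v) m).ne', one_mul])
    (fun z => hc z.1 z.2) (fun i z => ch_abs _ _) hgram
  have hbes' : ∀ ε > 0, ∀ᶠ s : ℝ in 𝓝[>] 1,
      ∑ i, ((s - 1) * ∑' v : Pr k, μ i v * wt s v) ^ 2 ≤ B ^ 2 + ε := by
    intro ε hε
    filter_upwards [hbes ε hε, self_mem_nhdsWithin] with s h1 hs1
    have hs2 : (1 : ℝ) < s := hs1
    refine le_trans (le_of_eq ?_) h1
    refine Finset.sum_congr rfl fun i _ => ?_
    rw [(sig_tf hA2 hs2 (fun z => c z.1 z.2 * ch (D i) z) B (hcx i)).2]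
  intro ε hε
  filter_upwards [hbes' ε hε] with s h1
  refine le_trans (le_of_eq ?_) h1
  refine Finset.sum_congr rfl fun i _ => ?_
  congr 2
  refine tsum_congr fun v => ?_
  rw [finsum_eq_sum_of_fintype]
  rfl

private lemma ccw_abs {w : ℕ → ℝ} (hw : BdW w) {f g : (Py k m)[X]} (hf : 1 ≤ f.natDegree)
    (hg : 1 ≤ g.natDegree) (z : Σ v : Pr k, (Fin m → Kv v)) :
    |cc f g z| ≤ w f.natDegree * w g.natDegree := by
  have hB : (0 : ℝ) ≤ w f.natDegree * w g.natDegree := mul_nonneg (hw.1 _) (hw.1 _)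
  unfold cc
  split_ifs with h
  · obtain ⟨h2, ⟨hf1, hf2⟩, hg1, hg2⟩ := h
    have h3 := hw.2 k z.1 h2
    have e1 := h3 (fib f z.1 z.2) (by rw [hf1]; exact hf) hf2
    have e2 := h3 (fib g z.1 z.2) (by rw [hg1]; exact hg) hg2
    rw [hf1] at e1
    rw [hg1] at e2
    have hq := q_two_tf z.1
    have hq0 : (0 : ℝ) < q z.1 := by linarith
    rw [abs_div, abs_of_pos hq0, div_le_iff₀ hq0, abs_mul]
    refine (mul_le_mul e1 e2 (abs_nonneg _) (mul_nonneg (hw.1 _) (Real.sqrt_nonneg _))).trans (le_of_eq ?_)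
    have := Real.mul_self_sqrt hq0.le
    linear_combination (w f.natDegree * w g.natDegree : ℝ) * this
  · rw [abs_zero]
    exact hB

theorem hF8w (hA2 : StA2) (hA7 : StA7) (hF1 : StF1) (hF2 : StF2) (hF3 : StF3) (hF8a : StF8a)
    (w : ℕ → ℝ) (hw : BdW w) : StF8w w := by
  intro k _ _ m f g hf hg hfs hgs ι _ D hD hDD C R b hR hb
  have hq0 : ∀ v : Pr k, (0 : ℝ) < q v := fun v => by linarith [q_two_tf v]
  set B : ℝ := w f.natDegree * w g.natDegree with hB
  have h2fin : {v : Pr k | (2 : 𝓞 k) ∈ v.asIdeal}.Finite := (hA7 k).1 2 two_ne_zero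
  -- means
  set μ : ι → Pr k → ℝ := fun i v =>
    (∑ᶠ y : Fin m → Kv v, cc f g ⟨v, y⟩ * chF v (val v y (D i))) / (q v : ℝ) ^ m with hμ
  have hcx : ∀ i (v : Pr k) (y : Fin m → Kv v), |cc f g ⟨v, y⟩ * chF v (val v y (D i))| ≤ B :=
    fun i v y => by
      rw [abs_mul]
      exact (mul_le_of_le_one_right (abs_nonneg _) (chF_abs _ _)).trans (ccw_abs hw hf hg ⟨v, y⟩)
  have hμB : ∀ i v, |μ i v| ≤ B := by
    intro i v
    have hqm : (0 : ℝ) < (q v : ℝ) ^ m := pow_pos (hq0 v) m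
    simp only [hμ]
    rw [finsum_eq_sum_of_fintype, abs_div, abs_of_pos hqm, div_le_iff₀ hqm]
    refine (Finset.abs_sum_le_sum_abs _ _).trans ?_
    refine (Finset.sum_le_sum fun y _ => hcx i v y).trans (le_of_eq ?_)
    rw [Finset.sum_const, Finset.card_univ, nsmul_eq_mul, ftcard_fun, mul_comm]
  have hbes' : ∀ ε > 0, ∀ᶠ s : ℝ in 𝓝[>] 1,
      ∑ i, ((s - 1) * ∑' v : Pr k, μ i v * wt s v) ^ 2 ≤ B ^ 2 + ε :=
    hF8a k m (fun v y => cc f g ⟨v, y⟩) B (fun v y => ccw_abs hw hf hg ⟨v, y⟩) ι D hD hDD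
  -- comparison with the mean over the smooth fibres
  have hf0 : f ≠ 0 := fun h => by simp [h] at hf
  have hg0 : g ≠ 0 := fun h => by simp [h] at hg
  obtain ⟨Pf, hPf, hPf'⟩ := hF2 k m f hf0 hfs
  obtain ⟨Pg, hPg, hPg'⟩ := hF2 k m g hg0 hgs
  choose Cz Rz hCz hRz hz using fun i =>
    zero_mean hF1 (D i * (Pf * Pg)) (mul_ne_zero (hD i) (mul_ne_zero hPf hPg))
  set R' : Set (Pr k) := (R ∪ {v : Pr k | (2 : 𝓞 k) ∈ v.asIdeal}) ∪ ⋃ i, Rz i with hR'
  have hR'f : R'.Finite := (hR.union h2fin).union (Set.finite_iUnion hRz)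
  refine hF7r hA2 k ι μ 2 B hμB hbes' (C + 2 * ∑ i, Cz i) R' b hR'f fun i v hv => ?_
  have hvR : v ∉ R := fun h => hv (Or.inl (Or.inl h))
  have hv2 : (2 : 𝓞 k) ∉ v.asIdeal := fun h => hv (Or.inl (Or.inr h))
  have hvz : v ∉ Rz i := fun h => hv (Or.inr (Set.mem_iUnion.2 ⟨i, h⟩))
  have hqm : (0 : ℝ) < (q v : ℝ) ^ m := pow_pos (hq0 v) m
  obtain ⟨-, h3t, -, -, -⟩ := hF3 k v hv2
  -- termwise
  have hterm : ∀ y : Fin m → Kv v, |(2 * (q v : ℝ) + cc f g ⟨v, y⟩ * ch (D i) ⟨v, y⟩ * q v) -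
      (if Good (D i) f g v y then
        (2 * (q v : ℝ) + trF v (Polynomial.C (val v y (D i)) * fib f v y) * trF v (fib g v y)) else 0)| ≤
      2 * q v * (if val v y (D i * (Pf * Pg)) = 0 then (1 : ℝ) else 0) := by
    intro y
    by_cases hG : Good (D i) f g v y
    · rw [if_pos hG]
      obtain ⟨hG1, hG2⟩ := hG
      have e1 : cc f g ⟨v, y⟩ = (trF v (fib f v y) * trF v (fib g v y) : ℝ) / q v :=
        if_pos ⟨hv2, hG2⟩
      have e2 : ch (D i) ⟨v, y⟩ = chF v (val v y (D i)) := rfl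
      rw [e1, e2, h3t _ _ hG1]
      have e3 : (2 * (q v : ℝ) + (trF v (fib f v y) * trF v (fib g v y) : ℝ) / q v *
          chF v (val v y (D i)) * q v) - (2 * (q v : ℝ) +
          chF v (val v y (D i)) * trF v (fib f v y) * trF v (fib g v y)) = 0 := by
        have hqne : (q v : ℝ) ≠ 0 := (hq0 v).ne'
        rw [div_mul_eq_mul_div, div_mul_cancel₀ _ hqne]
        ring
      rw [e3, abs_zero]
      have := (hq0 v).le
      split_ifs <;> positivity
    · rw [if_neg hG, sub_zero]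
      have hbad : val v y (D i * (Pf * Pg)) = 0 := by
        by_contra hne
        rw [map_mul, map_mul] at hne
        have n1 : val v y (D i) ≠ 0 := left_ne_zero_of_mul hne
        have n2 : val v y Pf ≠ 0 := left_ne_zero_of_mul (right_ne_zero_of_mul hne)
        have n3 : val v y Pg ≠ 0 := right_ne_zero_of_mul (right_ne_zero_of_mul hne)
        exact hG ⟨n1, hPf' v y n2, hPg' v y n3⟩
      rw [if_pos hbad, mul_one]
      have hz0 : cc f g ⟨v, y⟩ * ch (D i) ⟨v, y⟩ = 0 := by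
        by_cases h1 : val v y (D i) = 0
        · have e2 : ch (D i) ⟨v, y⟩ = 0 := by
            show chF v (val v y (D i)) = 0
            unfold chF
            rw [if_pos h1]
          rw [e2, mul_zero]
        · have e1 : cc f g ⟨v, y⟩ = 0 := if_neg fun h => hG ⟨h1, h.2⟩
          rw [e1, zero_mul]
      rw [hz0, zero_mul, add_zero, abs_of_pos (by linarith [hq0 v])]
  have hmain : |(2 * (q v : ℝ) + μ i v * q v) - BB (D i) f g v| ≤ 2 * Cz i := by
    have e1 : (2 * (q v : ℝ) + μ i v * q v) = (∑ y : Fin m → Kv v,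
        (2 * (q v : ℝ) + cc f g ⟨v, y⟩ * ch (D i) ⟨v, y⟩ * q v)) / (q v : ℝ) ^ m := by
      rw [Finset.sum_add_distrib, Finset.sum_const, Finset.card_univ, nsmul_eq_mul, ftcard_fun,
        ← Finset.sum_mul, add_div, mul_div_cancel_left₀ _ hqm.ne']
      simp only [hμ]
      rw [finsum_eq_sum_of_fintype]
      simp only [ch]
      ring
    rw [e1]
    unfold BB
    rw [finsum_eq_sum_of_fintype, ← sub_div, ← Finset.sum_sub_distrib, abs_div,
      abs_of_pos hqm, div_le_iff₀ hqm]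
    refine (Finset.abs_sum_le_sum_abs _ _).trans ?_
    refine (Finset.sum_le_sum fun y _ => hterm y).trans ?_
    rw [← Finset.mul_sum]
    have h4 := hz i v hvz
    rw [div_mul_eq_mul_div, div_le_iff₀ hqm] at h4
    linarith
  have h5 : Cz i ≤ ∑ i, Cz i := Finset.single_le_sum (fun i _ => hCz i) (Finset.mem_univ i)
  have h6 := hb i v hvR
  have h7 := abs_le.1 hmain
  have h8 := abs_le.1 h6
  exact abs_le.2 ⟨by linarith [h7.1, h7.2, h8.1], by linarith [h7.1, h7.2, h8.2]⟩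

end

end Pool.Agent.Helper24.TF
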